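import Pool.Agent.Helper81.AD2.Goals

/-! # Project AD2, packet RW: the 6T relations with named arrows lie in `relI`. -/

namespace Pool.Agent.Helper50.AD2.RW

open Pool.Agent.Helper88.AD Pool.Agent.Helper81.AD2

variable {d : ℕ}

theorem ren_mem (w : List (Pt d)) (σ : Equiv.Perm (Fin d)) : el w - el (ren σ w) ∈ relI d :=
  Submodule.subset_span (Or.inl ⟨w, σ, rfl⟩)

theorem six_mem (u : Fin 4 → List (Pt d)) (τ : Equiv.Perm (Fin 3)) (x y : Fin d) :
    sixT u τ x y ∈ relI d :=
  Submodule.subset_span (Or.inr ⟨u, τ, x, y, rfl⟩)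

/-- The word with `a m` on the arc `m`. -/
def Wo (U : Fin 4 → List (Pt d)) (τ : Equiv.Perm (Fin 3)) (a : Fin 3 → List (Pt d)) :
    List (Pt d) :=
  U 0 ++ a (τ 0) ++ U 1 ++ a (τ 1) ++ U 2 ++ a (τ 2) ++ U 3

theorem count_Wo (U : Fin 4 → List (Pt d)) (τ : Equiv.Perm (Fin 3)) (a : Fin 3 → List (Pt d))
    (p : Pt d) : (Wo U τ a).count p = (∑ k, (U k).count p) + ∑ m, (a m).count p := by
  have h : ∑ m, (a m).count p = ∑ m, (a (τ m)).count p :=
    (Equiv.sum_comp τ fun m => (a m).count p).symm
  rw [h, Fin.sum_univ_four, Fin.sum_univ_three]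
  unfold Wo
  simp only [List.count_append]
  omega

theorem ren_app (σ : Equiv.Perm (Fin d)) (u v : List (Pt d)) :
    ren σ (u ++ v) = ren σ u ++ ren σ v := List.map_append

theorem ren_swap {x y : Fin d} {l : List (Pt d)} (h : ∀ p ∈ l, p.1 ≠ x ∧ p.1 ≠ y) :
    ren (Equiv.swap x y) l = l := by
  unfold ren
  conv_rhs => rw [← List.map_id l]
  apply List.map_congr_left
  intro p hp
  obtain ⟨h1, h2⟩ := h p hp
  rw [Equiv.swap_apply_of_ne_of_ne h1 h2]
  rfl

theorem ren_Wo {x y : Fin d} (U : Fin 4 → List (Pt d)) (τ : Equiv.Perm (Fin 3))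
    (a : Fin 3 → List (Pt d)) (hU : ∀ k, ∀ p ∈ U k, p.1 ≠ x ∧ p.1 ≠ y) :
    ren (Equiv.swap x y) (Wo U τ a) = Wo U τ fun m => ren (Equiv.swap x y) (a m) := by
  unfold Wo
  simp only [ren_app, ren_swap (hU 0), ren_swap (hU 1), ren_swap (hU 2), ren_swap (hU 3)]

theorem pr_eq (U : Fin 4 → List (Pt d)) (τ : Equiv.Perm (Fin 3)) (x y : Fin d)
    (i j k l : Fin 3) (a : Fin 3 → List (Pt d)) (h : ∀ m, ep x i j m ++ ep y k l m = a m) :
    pr U τ x y i j k l = Wo U τ a := by
  unfold pr Wo
  rw [h, h, h]

theorem key (U : Fin 4 → List (Pt d)) (τ : Equiv.Perm (Fin 3)) {x y : Fin d}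
    (hU : ∀ k, ∀ p ∈ U k, p.1 ≠ x ∧ p.1 ≠ y) :
    (el (Wo U τ ![[(x, true)], [(x, false), (y, true)], [(y, false)]]) -
      el (Wo U τ ![[(x, true)], [(y, true), (x, false)], [(y, false)]])) +
    (el (Wo U τ ![[(x, true), (y, true)], [(x, false)], [(y, false)]]) -
      el (Wo U τ ![[(y, true), (x, true)], [(x, false)], [(y, false)]])) +
    (el (Wo U τ ![[(x, true)], [(y, true)], [(x, false), (y, false)]]) -
      el (Wo U τ ![[(x, true)], [(y, true)], [(y, false), (x, false)]])) ∈ relI d := by
  have h6 := six_mem U τ x y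
  unfold sixT at h6
  rw [pr_eq U τ x y 0 1 0 2 ![[(x, true), (y, true)], [(x, false)], [(y, false)]]
      (by intro m; fin_cases m <;> rfl),
    pr_eq U τ x y 0 2 0 1 ![[(x, true), (y, true)], [(y, false)], [(x, false)]]
      (by intro m; fin_cases m <;> rfl),
    pr_eq U τ x y 0 1 1 2 ![[(x, true)], [(x, false), (y, true)], [(y, false)]]
      (by intro m; fin_cases m <;> rfl),
    pr_eq U τ x y 1 2 0 1 ![[(y, true)], [(x, true), (y, false)], [(x, false)]]
      (by intro m; fin_cases m <;> rfl),
    pr_eq U τ x y 0 2 1 2 ![[(x, true)], [(y, true)], [(x, false), (y, false)]]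
      (by intro m; fin_cases m <;> rfl),
    pr_eq U τ x y 1 2 0 2 ![[(y, true)], [(x, true)], [(x, false), (y, false)]]
      (by intro m; fin_cases m <;> rfl)] at h6
  have r1 := ren_mem (Wo U τ ![[(x, true), (y, true)], [(y, false)], [(x, false)]])
    (Equiv.swap x y)
  have r2 := ren_mem (Wo U τ ![[(y, true)], [(x, true), (y, false)], [(x, false)]])
    (Equiv.swap x y)
  have r3 := ren_mem (Wo U τ ![[(y, true)], [(x, true)], [(x, false), (y, false)]])
    (Equiv.swap x y)
  rw [ren_Wo U τ _ hU] at r1 r2 r3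
  have e1 : (fun m => ren (Equiv.swap x y)
      ((![[(x, true), (y, true)], [(y, false)], [(x, false)]] : Fin 3 → List (Pt d)) m)) =
      ![[(y, true), (x, true)], [(x, false)], [(y, false)]] := by
    funext m; fin_cases m <;> simp [ren]
  have e2 : (fun m => ren (Equiv.swap x y)
      ((![[(y, true)], [(x, true), (y, false)], [(x, false)]] : Fin 3 → List (Pt d)) m)) =
      ![[(x, true)], [(y, true), (x, false)], [(y, false)]] := by
    funext m; fin_cases m <;> simp [ren]
  have e3 : (fun m => ren (Equiv.swap x y)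
      ((![[(y, true)], [(x, true)], [(x, false), (y, false)]] : Fin 3 → List (Pt d)) m)) =
      ![[(x, true)], [(y, true)], [(y, false), (x, false)]] := by
    funext m; fin_cases m <;> simp [ren]
  rw [e1] at r1
  rw [e2] at r2
  rw [e3] at r3
  have h := (relI d).add_mem (((relI d).add_mem (((relI d).add_mem h6 r1)) r2)) r3
  refine (congrArg (· ∈ relI d) ?_).mp h
  abel

theorem not_mem_U (U : Fin 4 → List (Pt d)) (τ : Equiv.Perm (Fin 3)) {x y : Fin d} (hxy : x ≠ y)
    (hD : IsD (Wo U τ ![[(x, true)], [(x, false), (y, true)], [(y, false)]])) :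
    ∀ k, ∀ p ∈ U k, p.1 ≠ x ∧ p.1 ≠ y := by
  have hyx : y ≠ x := Ne.symm hxy
  have gen : ∀ p : Pt d, (∑ m, ((![[(x, true)], [(x, false), (y, true)], [(y, false)]] :
      Fin 3 → List (Pt d)) m).count p) = 1 → ∀ k, p ∉ U k := by
    intro p hp k hk
    have h1 := hD p
    rw [count_Wo, hp] at h1
    have h2 : ∑ k, (U k).count p = 0 := by omega
    rw [Finset.sum_eq_zero_iff] at h2
    exact List.count_eq_zero.1 (h2 k (Finset.mem_univ k)) hk
  have g1 := gen (x, true) (by simp [Fin.sum_univ_three, List.count_cons, hxy, hyx])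
  have g2 := gen (x, false) (by simp [Fin.sum_univ_three, List.count_cons, hxy, hyx])
  have g3 := gen (y, true) (by simp [Fin.sum_univ_three, List.count_cons, hxy, hyx])
  have g4 := gen (y, false) (by simp [Fin.sum_univ_three, List.count_cons, hxy, hyx])
  rintro k ⟨i, b⟩ hp
  constructor
  · rintro rfl
    cases b
    · exact g2 k hp
    · exact g1 k hp
  · rintro rfl
    cases b
    · exact g4 k hp
    · exact g3 k hp

theorem ev_br (u w : List (Pt d)) (p q : Pt d) :
    ev (wd u * br (wd [p]) (wd [q]) * wd w) = el (u ++ p :: q :: w) - el (u ++ q :: p :: w) := by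
  unfold br
  rw [mul_sub, sub_mul, map_sub, ← wd_append, ← wd_append, ← wd_append, ← wd_append, ← wd_append,
    ← wd_append, ev_wd, ev_wd]
  simp only [List.append_assoc, List.cons_append, List.nil_append]

theorem sb_once {a : Pt d} {p q : List (Pt d)} (hp : a ∉ p) (hq : a ∉ q) (e : A d) :
    sb a e (wd (p ++ a :: q)) = wd p * e * wd q := by
  rw [wd_append, wd_cons, map_mul, map_mul, sb_self, sb_wd_of_not_mem hp, sb_wd_of_not_mem hq,
    mul_assoc]

theorem fin {U : Fin 4 → List (Pt d)} {τ : Equiv.Perm (Fin 3)} {x y : Fin d} (hxy : x ≠ y)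
    {u w p q p' q' : List (Pt d)} (hD : IsD (u ++ (x, false) :: (y, true) :: w))
    (h1 : u ++ (x, false) :: w = p ++ (x, true) :: q)
    (h2 : u ++ (y, true) :: w = p' ++ (y, false) :: q')
    (hz : u ++ (x, false) :: (y, true) :: w =
      Wo U τ ![[(x, true)], [(x, false), (y, true)], [(y, false)]])
    (hz' : u ++ (y, true) :: (x, false) :: w =
      Wo U τ ![[(x, true)], [(y, true), (x, false)], [(y, false)]])
    (h3 : p ++ (x, true) :: (y, true) :: q =
      Wo U τ ![[(x, true), (y, true)], [(x, false)], [(y, false)]])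
    (h3' : p ++ (y, true) :: (x, true) :: q =
      Wo U τ ![[(y, true), (x, true)], [(x, false)], [(y, false)]])
    (h4 : p' ++ (x, false) :: (y, false) :: q' =
      Wo U τ ![[(x, true)], [(y, true)], [(x, false), (y, false)]])
    (h4' : p' ++ (y, false) :: (x, false) :: q' =
      Wo U τ ![[(x, true)], [(y, true)], [(y, false), (x, false)]]) :
    six (wd u) (wd w) x y ∈ relI d := by
  have hyx : y ≠ x := Ne.symm hxy
  have hU := not_mem_U U τ hxy (hz ▸ hD)
  have k1 : (x, true) ∉ p ∧ (x, true) ∉ q := by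
    have e1 := congrArg (List.count (x, true)) h1
    have e2 := hD (x, true)
    simp only [List.count_append, List.count_cons] at e1 e2
    simp [hxy, hyx] at e1 e2
    rw [← List.count_eq_zero, ← List.count_eq_zero]
    omega
  have k2 : (y, false) ∉ p' ∧ (y, false) ∉ q' := by
    have e1 := congrArg (List.count (y, false)) h2
    have e2 := hD (y, false)
    simp only [List.count_append, List.count_cons] at e1 e2
    simp [hxy, hyx] at e1 e2
    rw [← List.count_eq_zero, ← List.count_eq_zero]
    omega
  have f1 : wd u * wd [(x, false)] * wd w = wd (p ++ (x, true) :: q) := by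
    rw [← h1, wd_append, wd_cons (x, false) w, mul_assoc]
  have f2 : wd u * wd [(y, true)] * wd w = wd (p' ++ (y, false) :: q') := by
    rw [← h2, wd_append, wd_cons (y, true) w, mul_assoc]
  unfold six
  rw [f1, f2, sb_once k1.1 k1.2, sb_once k2.1 k2.2, ev_br, ev_br, ev_br, hz, hz', h3, h3', h4, h4']
  exact key U τ hU

/-- Combinations of rearrangements of the word `l`. -/
noncomputable def sp (l : List (Pt d)) : Submodule ℚ (A d) :=
  Submodule.span ℚ {z | ∃ m : List (Pt d), m.Perm l ∧ z = wd m}

theorem mul_sp {l l' l'' : List (Pt d)} (h : (l ++ l').Perm l'') {a b : A d} (ha : a ∈ sp l)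
    (hb : b ∈ sp l') : a * b ∈ sp l'' := by
  unfold sp at ha hb
  induction ha using Submodule.span_induction with
  | mem z hz =>
    obtain ⟨m, hm, rfl⟩ := hz
    induction hb using Submodule.span_induction with
    | mem z' hz' =>
      obtain ⟨m', hm', rfl⟩ := hz'
      exact Submodule.subset_span ⟨m ++ m', (hm.append hm').trans h, (wd_append _ _).symm⟩
    | zero => rw [mul_zero]; exact Submodule.zero_mem _
    | add x y _ _ hx hy => rw [mul_add]; exact Submodule.add_mem _ hx hy
    | smul c x _ hx => rw [mul_smul_comm]; exact Submodule.smul_mem _ _ hx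
  | zero => rw [zero_mul]; exact Submodule.zero_mem _
  | add x y _ _ hx hy => rw [add_mul]; exact Submodule.add_mem _ hx hy
  | smul c x _ hx => rw [smul_mul_assoc]; exact Submodule.smul_mem _ _ hx

/-- Substitution of a product of two letters, one of them the letter itself. -/
theorem sb_span (a b : Pt d) (e : A d) (he : e ∈ sp [a, b]) (v : List (Pt d)) :
    sb a e (wd v) ∈ sp (v ++ List.replicate (v.count a) b) := by
  induction v with
  | nil =>
    rw [wd_nil, map_one]
    exact Submodule.subset_span ⟨[], List.Perm.refl _, wd_nil.symm⟩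
  | cons p v ih =>
    rw [wd_cons, map_mul]
    by_cases hp : p = a
    · subst hp
      rw [sb_self, List.count_cons_self]
      refine mul_sp ?_ he ih
      rw [List.replicate_succ]
      simp only [List.cons_append, List.nil_append]
      exact List.Perm.cons _ List.perm_middle.symm
    · rw [sb_ne hp, List.count_cons_of_ne hp]
      refine mul_sp ?_ (Submodule.subset_span ⟨[p], List.Perm.refl _, rfl⟩) ih
      exact List.Perm.refl _

theorem ev_zero {v : List (Pt d)} (hv : ¬ IsD v) {z : A d}
    (hz : z ∈ sp v) : ev z = 0 := by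
  unfold sp at hz
  induction hz using Submodule.span_induction with
  | mem z hz =>
    obtain ⟨l, hl, rfl⟩ := hz
    rw [ev_wd, el_of_not]
    rw [isD_perm hl]
    exact hv
  | zero => rw [map_zero]
  | add x y _ _ hx hy => rw [map_add, hx, hy, add_zero]
  | smul c x _ hx => rw [map_smul, hx, smul_zero]

theorem br_span (a b : Pt d) : br (wd [a]) (wd [b]) ∈ sp [a, b] := by
  unfold br sp
  refine Submodule.sub_mem _ (Submodule.subset_span ⟨[a, b], List.Perm.refl _, ?_⟩)
    (Submodule.subset_span ⟨[b, a], List.Perm.swap _ _ _, ?_⟩)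
  · rw [← wd_append]; rfl
  · rw [← wd_append]; rfl

theorem br_span' (a b : Pt d) : br (wd [b]) (wd [a]) ∈ sp [a, b] := by
  rw [br_neg]
  exact Submodule.neg_mem _ (br_span a b)

theorem six_not {u w : List (Pt d)} {x y : Fin d} (hxy : x ≠ y)
    (hD : ¬ IsD (u ++ (x, false) :: (y, true) :: w)) : six (wd u) (wd w) x y = 0 := by
  have hyx : y ≠ x := Ne.symm hxy
  have gen : ∀ (a b c : Pt d), a ≠ b → ¬ IsD (u ++ c :: b :: w) →
      ¬ IsD ((u ++ c :: w) ++ List.replicate ((u ++ c :: w).count a) b) := by
    intro a b c hab h h'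
    have h1 := h' a
    rw [List.count_append, List.count_replicate] at h1
    have hba : (b == a) = false := by simpa using Ne.symm hab
    rw [hba] at h1
    have h2 : (u ++ c :: w).count a = 1 := by simpa using h1
    rw [h2] at h'
    apply h
    refine (isD_perm ?_).1 h'
    simp only [List.replicate_one, List.append_assoc, List.cons_append]
    refine List.Perm.append_left _ (List.Perm.cons _ ?_)
    exact List.perm_append_singleton b w
  have f1 : wd u * wd [(x, false)] * wd w = wd (u ++ (x, false) :: w) := by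
    rw [wd_append, wd_cons (x, false) w, mul_assoc]
  have f2 : wd u * wd [(y, true)] * wd w = wd (u ++ (y, true) :: w) := by
    rw [wd_append, wd_cons (y, true) w, mul_assoc]
  have hsw : ¬ IsD (u ++ (y, true) :: (x, false) :: w) := by
    intro h
    apply hD
    exact (isD_perm (List.Perm.append_left _ (List.Perm.swap _ _ _))).1 h
  unfold six
  rw [f1, f2, ev_br, el_of_not hD, el_of_not hsw, sub_zero, zero_add]
  rw [ev_zero (gen (x, true) (y, true) (x, false) (by simp [hxy]) hD)
      (sb_span (x, true) (y, true) _ (br_span _ _) _),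
    ev_zero (gen (y, false) (x, false) (y, true) (by simp [hyx]) hsw)
      (sb_span (y, false) (x, false) _ (br_span' _ _) _), add_zero]

theorem six_word (u w : List (Pt d)) {x y : Fin d} (hxy : x ≠ y) :
    six (wd u) (wd w) x y ∈ relI d := by
  by_cases hD : IsD (u ++ (x, false) :: (y, true) :: w)
  swap
  · rw [six_not hxy hD]; exact Submodule.zero_mem _
  have hyx : y ≠ x := Ne.symm hxy
  have mem1 : (x, true) ∈ u ∨ (x, true) ∈ w := by
    have h : (x, true) ∈ u ++ (x, false) :: (y, true) :: w := by
      rw [← List.count_pos_iff, hD]; exact one_pos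
    simpa [hxy, hyx] using h
  have mem2 : (y, false) ∈ u ∨ (y, false) ∈ w := by
    have h : (y, false) ∈ u ++ (x, false) :: (y, true) :: w := by
      rw [← List.count_pos_iff, hD]; exact one_pos
    simpa [hxy, hyx] using h
  rcases mem1 with hx | hx
  · obtain ⟨s, t, rfl⟩ := List.append_of_mem hx
    rcases mem2 with hy | hy
    · have hy' : (y, false) ∈ s ∨ (y, false) ∈ t := by simpa [hxy, hyx] using hy
      rcases hy' with hy' | hy'
      · -- h_y, t_x, place
        obtain ⟨s1, s2, rfl⟩ := List.append_of_mem hy'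
        refine fin (U := ![s1, s2, t, w]) (τ := ⟨![2, 0, 1], ![1, 2, 0], by decide, by decide⟩)
          (p := s1 ++ (y, false) :: s2) (q := t ++ (x, false) :: w) (p' := s1)
          (q' := s2 ++ (x, true) :: (t ++ (y, true) :: w)) hxy hD ?_ ?_ ?_ ?_ ?_ ?_ ?_ ?_ <;>
          simp [Wo]
      · -- t_x, h_y, place
        obtain ⟨t1, t2, rfl⟩ := List.append_of_mem hy'
        refine fin (U := ![s, t1, t2, w]) (τ := ⟨![0, 2, 1], ![0, 2, 1], by decide, by decide⟩)
          (p := s) (q := t1 ++ (y, false) :: (t2 ++ (x, false) :: w))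
          (p' := s ++ (x, true) :: t1)
          (q' := t2 ++ (y, true) :: w) hxy hD ?_ ?_ ?_ ?_ ?_ ?_ ?_ ?_ <;>
          simp [Wo]
    · -- t_x, place, h_y
      obtain ⟨s', t', rfl⟩ := List.append_of_mem hy
      refine fin (U := ![s, t, s', t']) (τ := 1)
        (p := s) (q := t ++ (x, false) :: (s' ++ (y, false) :: t'))
        (p' := s ++ (x, true) :: (t ++ (y, true) :: s'))
        (q' := t') hxy hD ?_ ?_ ?_ ?_ ?_ ?_ ?_ ?_ <;>
        simp [Wo]
  · obtain ⟨s, t, rfl⟩ := List.append_of_mem hx
    rcases mem2 with hy | hy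
    · -- h_y, place, t_x
      obtain ⟨s', t', rfl⟩ := List.append_of_mem hy
      refine fin (U := ![s', t', s, t]) (τ := ⟨![2, 1, 0], ![2, 1, 0], by decide, by decide⟩)
        (p := s' ++ (y, false) :: (t' ++ (x, false) :: s)) (q := t)
        (p' := s')
        (q' := t' ++ (y, true) :: (s ++ (x, true) :: t)) hxy hD ?_ ?_ ?_ ?_ ?_ ?_ ?_ ?_ <;>
        simp [Wo]
    · have hy' : (y, false) ∈ s ∨ (y, false) ∈ t := by simpa [hxy, hyx] using hy
      rcases hy' with hy' | hy'
      · -- place, h_y, t_x
        obtain ⟨s1, s2, rfl⟩ := List.append_of_mem hy'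
        refine fin (U := ![u, s1, s2, t]) (τ := ⟨![1, 2, 0], ![2, 0, 1], by decide, by decide⟩)
          (p := u ++ (x, false) :: (s1 ++ (y, false) :: s2)) (q := t)
          (p' := u ++ (y, true) :: s1)
          (q' := s2 ++ (x, true) :: t) hxy hD ?_ ?_ ?_ ?_ ?_ ?_ ?_ ?_ <;>
          simp [Wo]
      · -- place, t_x, h_y
        obtain ⟨t1, t2, rfl⟩ := List.append_of_mem hy'
        refine fin (U := ![u, s, t1, t2]) (τ := ⟨![1, 0, 2], ![1, 0, 2], by decide, by decide⟩)
          (p := u ++ (x, false) :: s) (q := t1 ++ (y, false) :: t2)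
          (p' := u ++ (y, true) :: (s ++ (x, true) :: t1))
          (q' := t2) hxy hD ?_ ?_ ?_ ?_ ?_ ?_ ?_ ?_ <;>
          simp [Wo]

theorem six_gen (c c' : A d) {x y : Fin d} (hxy : x ≠ y) : six c c' x y ∈ relI d := by
  have hc : c ∈ Submodule.span ℚ (Set.range (wd : List (Pt d) → A d)) := by
    rw [span_wd]; trivial
  have hc' : c' ∈ Submodule.span ℚ (Set.range (wd : List (Pt d) → A d)) := by
    rw [span_wd]; trivial
  induction hc using Submodule.span_induction with
  | mem z hz =>
    obtain ⟨u, rfl⟩ := hz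
    induction hc' using Submodule.span_induction with
    | mem z hz =>
      obtain ⟨w, rfl⟩ := hz
      exact six_word u w hxy
    | zero =>
      unfold six
      simp only [mul_zero, map_zero, add_zero]
      exact Submodule.zero_mem _
    | add a b _ _ ha hb =>
      have : six (wd u) (a + b) x y = six (wd u) a x y + six (wd u) b x y := by
        unfold six
        simp only [mul_add, map_add]
        abel
      rw [this]
      exact Submodule.add_mem _ ha hb
    | smul r a _ ha =>
      have : six (wd u) (r • a) x y = r • six (wd u) a x y := by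
        unfold six
        simp only [mul_smul_comm, map_smul, smul_add]
      rw [this]
      exact Submodule.smul_mem _ _ ha
  | zero =>
    unfold six
    simp only [zero_mul, map_zero, add_zero]
    exact Submodule.zero_mem _
  | add a b _ _ ha hb =>
    have : six (a + b) c' x y = six a c' x y + six b c' x y := by
      unfold six
      simp only [add_mul, map_add]
      abel
    rw [this]
    exact Submodule.add_mem _ ha hb
  | smul r a _ ha =>
    have : six (r • a) c' x y = r • six a c' x y := by
      unfold six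
      simp only [smul_mul_assoc, map_smul, smul_add]
    rw [this]
    exact Submodule.smul_mem _ _ ha

/-- Packet RW. -/
theorem t : S_RW := by
  intro d
  unfold N2
  rw [Submodule.span_le]
  rintro _ ⟨c, c', x, y, hxy, rfl⟩
  exact six_gen c c' hxy

end Pool.Agent.Helper50.AD2.RW
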